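import Mathlib

set_option autoImplicit false

namespace Pool.Agent.Results.MP_ba261c_co.Both

/-- `k` linear extensions whose intersection is the order. -/
def Real (α : Type) [PartialOrder α] (k : ℕ) : Prop :=
  ∃ L : Fin k → α → α → Prop, (∀ i, IsLinearOrder α (L i)) ∧ ∀ x y, x ≤ y ↔ ∀ i, L i x y

noncomputable def dim (α : Type) [PartialOrder α] : ℕ := sInf {k | Real α k}

variable {α : Type} [PartialOrder α]

def Irred (α : Type) [PartialOrder α] : Prop := ∀ x : α, dim {y // y ≠ x} < dim α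

def JIrr (a : α) : Prop := ∀ S, IsLUB S a → a ∈ S

def MIrr (a : α) : Prop := ∀ S, IsGLB S a → a ∈ S

def Crit (a b : α) : Prop := ¬ a ≤ b ∧ ¬ b ≤ a ∧ (∀ z, a < z → b < z) ∧ ∀ z, z < b → z < a

def Tw (x t : α) : Prop := ∀ z, z ≠ x → z ≠ t → (z ≤ x ↔ z ≤ t) ∧ (x ≤ z ↔ t ≤ z)

lemma low {x : α} (h : MIrr x) : ∃ y, (∀ z, x < z → y ≤ z) ∧ ¬ y ≤ x := by
  by_contra! c
  exact lt_irrefl x (h (Set.Ioi x) ⟨fun z hz => le_of_lt hz, fun y hy => c y hy⟩)

lemma comb [Finite α] {x : α} (h : MIrr x) : (∃ b, Crit x b) ∨ ∃ t, x < t ∧ Tw x t := by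
  obtain ⟨y, hy⟩ := low h
  obtain ⟨b, ⟨h1, h2⟩, m⟩ := wellFounded_lt.has_min {y | (∀ z, x < z → y ≤ z) ∧ ¬ y ≤ x} ⟨y, hy⟩
  have k : ∀ z, z < b → z ≤ x := fun z hz => by_contra fun c =>
    m z ⟨fun w hw => hz.le.trans (h1 w hw), c⟩ hz
  by_cases c : x ≤ b
  · have l : x < b := c.lt_of_ne fun e => h2 e.ge
    exact .inr ⟨b, l, fun z a d => ⟨⟨(·.trans c), fun e => k z (e.lt_of_ne d)⟩,
      fun e => h1 z (e.lt_of_ne a.symm), c.trans⟩⟩
  · exact .inl ⟨b, c, h2, fun z hz => (h1 z hz).lt_of_ne fun e => c (e ▸ hz.le),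
      fun z hz => (k z hz).lt_of_ne fun e => c (e ▸ hz.le)⟩

lemma tw (hI : Irred α) {x t u v : α} (n : x ≠ t) (c : x ≤ t ∨ t ≤ x) (h : Tw x t) (hu : u ≠ t)
    (hv : v ≠ t) (q : ¬ u ≤ v) : False := by
  classical
  have hI := hI t
  obtain ⟨L, l1, l2⟩ : Real α _ := Nat.sInf_mem (Nat.nonempty_of_pos_sInf (Nat.zero_lt_of_lt hI))
  obtain ⟨R, r1, r2⟩ : Real {y // y ≠ t} _ := Nat.sInf_mem (s := {k | Real {y // y ≠ t} k})
    ⟨_, fun i a b => L i a b, fun i => have := l1 i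
      { refl := fun a => refl_of (L i) _
        trans := fun _ _ _ => trans_of (L i)
        antisymm := fun _ _ a b => Subtype.ext (antisymm_of (L i) a b)
        total := fun _ _ => total_of (L i) _ _ }, fun a b => l2 a b⟩
  let f : α → {y // y ≠ t} := fun y => if e : y = t then ⟨x, n⟩ else ⟨y, e⟩
  have f1 : ∀ a b, f a = f b → a ≤ b ∨ b ≤ a := fun a b e => by
    simp only [f] at e
    split_ifs at e <;> simp only [Subtype.mk.injEq] at e <;> subst_vars <;> tauto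
  have f2 : ∀ a b, f a ≠ f b → (a ≤ b ↔ f a ≤ f b) := fun a b e => by
    simp only [f] at e ⊢
    split_ifs at e ⊢ with p r r
    · exact absurd rfl e
    · rw [p]; exact (h b (fun s => e (Subtype.ext s.symm)) r).2.symm
    · rw [r]; exact (h a (fun s => e (Subtype.ext s)) p).1.symm
    · rfl
  obtain ⟨j, -⟩ := not_forall.1 ((r2 ⟨u, hu⟩ ⟨v, hv⟩).not.1 q)
  refine hI.not_ge (Nat.sInf_le ⟨fun i a b => R i (f a) (f b) ∧ (f a = f b → a ≤ b), fun i => ?_,
    fun a b => ?_⟩)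
  · have := r1 i
    exact
      { refl := fun a => ⟨refl_of (R i) _, fun _ => le_rfl⟩
        trans := fun a b d p r => ⟨trans_of (R i) p.1 r.1, fun e => by
          have s := antisymm_of (R i) p.1 (e ▸ r.1)
          exact (p.2 s).trans (r.2 (s.symm.trans e))⟩
        antisymm := fun a b p r => have s := antisymm_of (R i) p.1 r.1; (p.2 s).antisymm (r.2 s.symm)
        total := fun a b => by
          by_cases e : f a = f b
          · exact (f1 a b e).imp (fun s => ⟨e ▸ refl_of (R i) _, fun _ => s⟩)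
              fun s => ⟨e ▸ refl_of (R i) _, fun _ => s⟩
          · exact (total_of (R i) (f a) (f b)).imp (⟨·, fun s => absurd s e⟩) (⟨·, fun s => absurd s.symm e⟩) }
  · by_cases e : f a = f b
    · exact ⟨fun s i => ⟨(r2 _ _).1 e.le i, fun _ => s⟩, fun s => (s j).2 e⟩
    · rw [f2 a b e, r2]; exact ⟨fun s i => ⟨s i, fun q => absurd q e⟩, fun s i => (s i).1⟩

theorem result {α : Type} [PartialOrder α] [Finite α] (hI : Irred α) (x : α) (hJ : JIrr x)
    (hM : MIrr x) : (∃ b, Crit x b) ∧ ∃ a, Crit a x := by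
  obtain ⟨y, -, hy⟩ := low hM
  obtain ⟨z, -, hz⟩ := low (α := αᵒᵈ) hJ
  refine ⟨(comb hM).resolve_right fun ⟨t, l, h⟩ => ?_, ?_⟩
  · exact tw (v := z) hI l.ne (.inl l.le) h l.ne (by rintro rfl; exact hz l.le) hz
  · obtain ⟨a, h⟩ | ⟨t, l, h⟩ := comb (α := αᵒᵈ) hJ
    · exact ⟨a, h.1, h.2.1, h.2.2.2, h.2.2.1⟩
    · exact (tw (α := α) (u := y) (t := t) hI l.ne (.inr l.le) (fun z a b => (h z a b).symm)
        (by rintro rfl; exact hy l.le) l.ne hy).elim

end Pool.Agent.Results.MP_ba261c_co.Both
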